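import Pool.Agent.J6H40.WG2.All

set_option autoImplicit false

/-!
# Wagstaff's conjecture in sequential random models of the primes

Wagstaff conjectured `p(d) ~ φ(d) (log d)²` for the largest, over the reduced residue classes `a` mod `d`, of the
least primes `p(d, a) ≡ a (mod d)`.  The conjecture is based on a random model of the primes.  We consider all
sequential random models of the primes with a slowly growing sieve: the integers are decided one after the other; no
`m` with a prime factor `q ≤ z(m)` is chosen; the conditional probability of choosing `m` (without such prime factors)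
given the past is asymptotic to `W / log m`, `W = ∏_{q ≤ z(m)} (1 - 1/q)⁻¹`.  Here `z` is monotone with
`z(m) = (log m) ^ o(1)`.  No independence and no rate is assumed.

In all these models, almost surely

* `liminf p(d) / (φ(d) (log d)²) = 1`, over all `d`, and also over the primes `d`,
* `limsup p(d) / (φ(d) (log d)²) = 2` over the primes `d`; so Wagstaff's asymptotic fails,
* `limsup p(d) / (φ(d) (log d)²) ≤ 2` over every set of `d` along which the sum of the `1/q` over the prime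
  factors `q > z(d)` of `d` tends to `0`.
-/

open MeasureTheory Filter
open scoped Topology ENNReal

namespace Pool.Agent.Results.MP_458f0b_nt.SequentialModels

/-- `m` has no prime factor `q ≤ z m` -/
def Rough (z : ℕ → ℕ) (m : ℕ) : Prop := ∀ q : ℕ, q.Prime → q ≤ z m → ¬ q ∣ m

/-- `∏ (1 - 1/q)⁻¹` over the primes `q ≤ x` -/
noncomputable def W (x : ℕ) : ℝ := ∏ q ∈ (Finset.Icc 1 x).filter Nat.Prime, (1 - (q : ℝ)⁻¹)⁻¹

/-- a sequential random model of the primes, sieved by the primes `q ≤ z(m)`: `S n` is the event that `n` is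
chosen -/
structure IsModel {Ω : Type} [mΩ : MeasurableSpace Ω] (μ : Measure Ω) (ℱ : Filtration ℕ mΩ)
    (S : ℕ → Set Ω) (z : ℕ → ℕ) : Prop where
  /-- whether `n` is chosen is known at the time `n` -/
  adapted : ∀ n, MeasurableSet[ℱ n] (S n)
  /-- no `n` with a prime factor `q ≤ z n` is chosen -/
  sieved : ∀ n, ¬ Rough z n → S n = ∅
  /-- the conditional probability of `S (n + 1)` given `ℱ n` is asymptotic to `W (z (n + 1)) / log (n + 1)`
  along the `n` with `Rough z (n + 1)` -/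
  density : ∀ᵐ ω ∂μ, Tendsto (fun n : ℕ =>
    (μ[(S (n + 1)).indicator (fun _ => (1 : ℝ)) | ℱ n]) ω * Real.log ((n + 1 : ℕ) : ℝ) / W (z (n + 1)))
    (atTop ⊓ 𝓟 {n : ℕ | Rough z (n + 1)}) (𝓝 1)

/-- `p(d)` in the model: the largest, over the reduced residues `a` mod `d`, of the least chosen `n ≡ a (mod d)`
(`∞` if some class contains no chosen integer) -/
noncomputable def pmax {Ω : Type} (S : ℕ → Set Ω) (ω : Ω) (d : ℕ) : ℝ≥0∞ :=
  ⨆ a ∈ {a : ℕ | a < d ∧ Nat.Coprime a d}, ⨅ n ∈ {n : ℕ | n ≡ a [MOD d] ∧ ω ∈ S n}, (n : ℝ≥0∞)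

/-- `p(d) / (φ(d) (log d)²)` in the model -/
noncomputable def ratio {Ω : Type} (S : ℕ → Set Ω) (ω : Ω) (d : ℕ) : ℝ≥0∞ :=
  pmax S ω d / ENNReal.ofReal ((Nat.totient d : ℝ) * Real.log d ^ 2)

/-- the sum of `1/q` over the prime factors `q > z(d)` of `d` -/
noncomputable def tail (z : ℕ → ℕ) (d : ℕ) : ℝ :=
  ∑ q ∈ d.primeFactors.filter (fun q => z d < q), (q : ℝ)⁻¹

/-- In all sequential random models of the primes with a slowly growing sieve, almost surely
`liminf p(d) / (φ(d) (log d)²) = 1` (over all `d` and over the primes `d`), `limsup p(d) / (φ(d) (log d)²) = 2` over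
the primes `d`, Wagstaff's asymptotic `p(d) ~ φ(d) (log d)²` fails, and
`limsup p(d) / (φ(d) (log d)²) ≤ 2` over every set `D` of `d` with `tail z d → 0`. -/
theorem result (z : ℕ → ℕ) (hz : Monotone z)
    (hz2 : ∀ δ : ℝ, 0 < δ → ∀ᶠ m : ℕ in atTop, (z m : ℝ) ≤ Real.log m ^ δ) {Ω : Type}
    [mΩ : MeasurableSpace Ω] (μ : Measure Ω) [IsProbabilityMeasure μ] (ℱ : Filtration ℕ mΩ)
    (S : ℕ → Set Ω) (hM : IsModel μ ℱ S z) :
    ∀ᵐ ω ∂μ, liminf (ratio S ω) atTop = 1 ∧
      liminf (ratio S ω) (atTop ⊓ 𝓟 {d : ℕ | d.Prime}) = 1 ∧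
      limsup (ratio S ω) (atTop ⊓ 𝓟 {d : ℕ | d.Prime}) = 2 ∧
      ¬ Tendsto (ratio S ω) atTop (𝓝 1) ∧
      ∀ D : Set ℕ, Tendsto (tail z) (atTop ⊓ 𝓟 D) (𝓝 0) → limsup (ratio S ω) (atTop ⊓ 𝓟 D) ≤ 2 := by
  filter_upwards [Pool.Agent.J6H40.WG2.all z ⟨hz, hz2⟩ μ ℱ S ⟨hM.adapted, hM.sieved, hM.density⟩] with ω hω
  obtain ⟨h1, h2, h3, h4⟩ := hω
  refine ⟨h1, h2, h3, fun h => ?_, h4⟩
  have : (atTop ⊓ 𝓟 {d : ℕ | d.Prime}).NeBot := by
    rw [inf_neBot_iff_frequently_left]
    intro p hp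
    rw [eventually_atTop] at hp
    obtain ⟨N, hN⟩ := hp
    rw [frequently_principal]
    obtain ⟨q, hq1, hq2⟩ := Nat.exists_infinite_primes N
    exact ⟨q, hq2, hN q hq1⟩
  have h5 := (h.mono_left (inf_le_left : atTop ⊓ 𝓟 {d : ℕ | d.Prime} ≤ atTop)).limsup_eq
  have h6 : limsup (ratio S ω) (atTop ⊓ 𝓟 {d : ℕ | d.Prime}) = 2 := h3
  rw [h6] at h5
  exact absurd h5 (by norm_num)

end Pool.Agent.Results.MP_458f0b_nt.SequentialModels
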