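import Pool.Agent.J6H61.SM.Fin

set_option autoImplicit false

/-!
# Large least primes for several moduli at the same time

Let `d_1, ..., d_m` be divisors of a large integer `D`, all at least `D ^ η` (any finite set of moduli which
are polynomially comparable, with `D` their least common multiple). Every interval `(M, M + D ^ η]` contains
at least `(φ(D) / D) D ^ η exp (-exp (C A m / η))` integers `a` prime to `D` such that for EVERY `i` all the
primes in the class `a` modulo `d_i` exceed `A φ(d_i) log d_i`. More generally several classes `a + h` modulo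
each `d_i` and arbitrary bounds `Z` for the primes, with `∑ Z / φ(d) ≤ A log D`, are admitted. For pairwise
coprime moduli this is a matter of independence; the point is that the moduli may have arbitrary common
factors. (The starting library has the case of a single modulus: `LeastPrimeTail`, `JointShortWindows`.)

Proof: an average over the residue classes modulo the product of the primes up to a small multiple of
`log D`, which takes care of the primes that divide some of the moduli only, and then the covering sieve of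
the starting library (`Pool.Agent.N837.LP.mainG`).
-/

namespace Pool.Agent.Results.MP_458f0b_nt.SeveralModuli
open Finset

/-- **Large least primes for several moduli at the same time.** For `D ≥ D₀(m, A, η)`, every set `S` of at
most `m` pairs `(d, h)` with `d ∣ D`, `d ≥ D ^ η`, `0 ≤ h < d`, all bounds `Z (d, h) ≥ 0` with
`∑ Z (d, h) / φ(d) ≤ A log D` and every real `M`: at least
`(φ(D) / D) D ^ η exp (-exp (C A / η))` integers `a` in `(M, M + D ^ η]` are prime to `D` and for all
`(d, h) ∈ S` every prime in the class `a + h` modulo `d` exceeds `Z (d, h)`. -/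
theorem result : ∃ C : ℝ, 0 < C ∧ ∀ (m : ℕ) (A η : ℝ), 1 ≤ m → 1 ≤ A → 0 < η → η ≤ 1 →
    ∃ D₀ : ℕ, ∀ D : ℕ, D₀ ≤ D →
    -- the general form
    (∀ S : Finset (ℕ × ℕ), #S ≤ m → (∀ w ∈ S, w.1 ∣ D ∧ (D : ℝ) ^ η ≤ w.1 ∧ w.2 < w.1) →
      ∀ Z : ℕ × ℕ → ℝ, (∀ w ∈ S, 0 ≤ Z w) →
      ∑ w ∈ S, Z w / (w.1.totient : ℝ) ≤ A * Real.log D → ∀ M : ℝ,
      (D.totient : ℝ) / D * (D : ℝ) ^ η * Real.exp (-Real.exp (C * (A / η))) ≤
        (({a : ℤ | M < a ∧ (a : ℝ) ≤ M + (D : ℝ) ^ η ∧ IsCoprime a (D : ℤ) ∧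
          ∀ w ∈ S, ∀ p : ℕ, p.Prime → (p : ℤ) ≡ a + w.2 [ZMOD w.1] → Z w < p} : Set ℤ).ncard : ℝ)) ∧
    -- the least primes modulo several divisors of `D`
    (∀ 𝒟 : Finset ℕ, #𝒟 ≤ m → (∀ d ∈ 𝒟, d ∣ D ∧ (D : ℝ) ^ η ≤ d) → ∀ M : ℝ,
      (D.totient : ℝ) / D * (D : ℝ) ^ η * Real.exp (-Real.exp (C * (m * A / η))) ≤
        (({a : ℤ | M < a ∧ (a : ℝ) ≤ M + (D : ℝ) ^ η ∧ IsCoprime a (D : ℤ) ∧
          ∀ d ∈ 𝒟, ∀ p : ℕ, p.Prime → (p : ℤ) ≡ a [ZMOD d] →
            A * (d.totient * Real.log d) < p} : Set ℤ).ncard : ℝ)) := by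
  obtain ⟨C, hC, h⟩ := Pool.Agent.J6H61.SM.tail_final
  refine ⟨C, hC, fun m A η hm hA hη hη1 => ?_⟩
  have hmR : (1 : ℝ) ≤ m := by exact_mod_cast hm
  obtain ⟨D₁, h1⟩ := h m A η hm hA hη hη1
  obtain ⟨D₂, h2⟩ := h m (m * A) η hm (by nlinarith) hη hη1
  refine ⟨max (max D₁ D₂) 1, fun D hD => ⟨?_, ?_⟩⟩
  · intro S hSm hS Z hZ hZs M
    exact h1 D (((le_max_left _ _).trans (le_max_left _ _)).trans hD) S hSm hS Z hZ hZs M
  · intro 𝒟 h𝒟m h𝒟 M
    have hD1 : 1 ≤ D := (le_max_right _ _).trans hD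
    have hDpos : (0 : ℝ) < D := by exact_mod_cast hD1
    set Z : ℕ × ℕ → ℝ := fun w => A * (w.1.totient * Real.log w.1) with hZd
    have hd1 : ∀ d ∈ 𝒟, 1 ≤ d ∧ (d : ℝ) ≤ D := fun d hd => by
      have h3 := Nat.pos_of_dvd_of_pos (h𝒟 d hd).1 hD1
      have h4 := Nat.le_of_dvd hD1 (h𝒟 d hd).1
      exact ⟨h3, by exact_mod_cast h4⟩
    set S : Finset (ℕ × ℕ) := 𝒟.image (fun d => (d, 0)) with hS
    have hSc : #S = #𝒟 := by
      rw [hS, Finset.card_image_of_injective]
      intro a b hab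
      exact (Prod.mk.inj hab).1
    have h5 := h2 D (((le_max_right _ _).trans (le_max_left _ _)).trans hD) S (by rw [hSc]; exact h𝒟m)
      (by
        intro w hw
        rw [hS, mem_image] at hw
        obtain ⟨d, hd, rfl⟩ := hw
        exact ⟨(h𝒟 d hd).1, (h𝒟 d hd).2, (hd1 d hd).1⟩) Z (by
        intro w hw
        rw [hS, mem_image] at hw
        obtain ⟨d, hd, rfl⟩ := hw
        have : 0 ≤ Real.log d := Real.log_nonneg (by exact_mod_cast (hd1 d hd).1)
        rw [hZd]
        positivity) (by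
        rw [hS, Finset.sum_image (fun a _ b _ hab => (Prod.mk.inj hab).1)]
        have h6 : ∀ d ∈ 𝒟, Z (d, 0) / ((d, 0) : ℕ × ℕ).1.totient ≤ A * Real.log D := by
          intro d hd
          have hφ : (0 : ℝ) < d.totient := by exact_mod_cast Nat.totient_pos.2 (hd1 d hd).1
          have e : Z (d, 0) / (((d, 0) : ℕ × ℕ).1.totient : ℝ) = A * Real.log d := by
            rw [hZd]
            field_simp
          rw [e]
          apply mul_le_mul_of_nonneg_left _ (by linarith)
          exact Real.log_le_log (by exact_mod_cast (hd1 d hd).1) (hd1 d hd).2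
        refine (Finset.sum_le_sum h6).trans ?_
        rw [Finset.sum_const, nsmul_eq_mul]
        have h7 : (#𝒟 : ℝ) ≤ m := by exact_mod_cast h𝒟m
        have h8 : 0 ≤ A * Real.log D :=
          mul_nonneg (by linarith) (Real.log_nonneg (by exact_mod_cast hD1))
        nlinarith) M
    refine h5.trans ?_
    norm_cast
    apply Set.ncard_le_ncard
    · rintro a ⟨a1, a2, a3, a4⟩
      refine ⟨a1, a2, a3, fun d hd p hp hpa => ?_⟩
      apply a4 (d, 0) (by rw [hS, mem_image]; exact ⟨d, hd, rfl⟩) p hp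
      simpa using hpa
    · apply (Set.finite_Icc ⌊M⌋ ⌈M + (D : ℝ) ^ η⌉).subset
      intro a ha
      obtain ⟨h1, h2, _⟩ := ha
      rw [Set.mem_Icc]
      constructor
      · have := Int.floor_le M
        have h3 : ((⌊M⌋ : ℤ) : ℝ) < a := by linarith
        exact_mod_cast h3.le
      · have := Int.le_ceil (M + (D : ℝ) ^ η)
        have h3 : (a : ℝ) ≤ ((⌈M + (D : ℝ) ^ η⌉ : ℤ) : ℝ) := by linarith
        exact_mod_cast h3

end Pool.Agent.Results.MP_458f0b_nt.SeveralModuli
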