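import Pool.Agent.J6H61.SM.Rec

set_option autoImplicit false

/-!
# Very large least primes for several moduli at the same time

Let `d_1, ..., d_m` be divisors of a large integer `D`, all at least `D ^ η` (any finite set of moduli which
are polynomially comparable, with `D` their least common multiple). Every interval `(M, M + D ^ η]` contains
an integer `a` prime to `D` such that for EVERY `i` all the primes in the class `a` modulo `d_i` exceed
`(c η / m) φ(d_i) log d_i log log d_i`. More generally several classes `a + h` modulo each `d_i` and arbitrary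
bounds `Z` for the primes, with `∑ Z / φ(d) ≤ c η log D log log D`, are admitted; the constant `c` does not
depend on the number of the classes. The case of a single modulus and `M = 0`, `η = 1` is the theorem
`EveryModulus` of the starting library. The moduli may have arbitrary common factors.

Proof: an average over the residue classes modulo the product of the primes up to `(log D ^ η) / 10`, and the
covering theorem of the starting library (`Pool.Agent.H256R2.SC`) in a form in which up to `(log X) ^ 4 / 2`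
primes may be excluded and the candidates may be changed slightly (`Pool.Agent.J6H61.SM.covering5`).
-/

namespace Pool.Agent.Results.MP_458f0b_nt.SeveralModuliRecord
open Finset

/-- **Very large least primes for several moduli at the same time.** -/
theorem result : ∃ c : ℝ, 0 < c ∧ ∀ (m : ℕ) (η : ℝ), 1 ≤ m → 0 < η → η ≤ 1 →
    ∃ D₀ : ℕ, ∀ D : ℕ, D₀ ≤ D →
    -- the general form
    (∀ S : Finset (ℕ × ℕ), #S ≤ m → (∀ w ∈ S, w.1 ∣ D ∧ (D : ℝ) ^ η ≤ w.1 ∧ w.2 < w.1) →
      ∀ Z : ℕ × ℕ → ℝ, (∀ w ∈ S, 0 ≤ Z w) →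
      ∑ w ∈ S, Z w / (w.1.totient : ℝ) ≤ c * (η * Real.log D * Real.log (Real.log D)) → ∀ M : ℝ,
      ∃ a : ℤ, M < a ∧ (a : ℝ) ≤ M + (D : ℝ) ^ η ∧ IsCoprime a (D : ℤ) ∧
        ∀ w ∈ S, ∀ p : ℕ, p.Prime → (p : ℤ) ≡ a + w.2 [ZMOD w.1] → Z w < p) ∧
    -- the least primes modulo several divisors of `D`
    (∀ 𝒟 : Finset ℕ, #𝒟 ≤ m → (∀ d ∈ 𝒟, d ∣ D ∧ (D : ℝ) ^ η ≤ d) → ∀ M : ℝ,
      ∃ a : ℤ, M < a ∧ (a : ℝ) ≤ M + (D : ℝ) ^ η ∧ IsCoprime a (D : ℤ) ∧
        ∀ d ∈ 𝒟, ∀ p : ℕ, p.Prime → (p : ℤ) ≡ a [ZMOD d] →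
          c * η / m * (d.totient * Real.log d * Real.log (Real.log d)) < p) := by
  obtain ⟨c, hc, h⟩ := Pool.Agent.J6H61.SM.rec_final
  refine ⟨c, hc, fun m η hm hη hη1 => ?_⟩
  have hmR : (1 : ℝ) ≤ m := by exact_mod_cast hm
  obtain ⟨D₁, h1⟩ := h m η hm hη hη1
  obtain ⟨D₂, hD₂⟩ := exists_nat_ge (Real.exp (1 / η))
  refine ⟨max (max D₁ D₂) 1, fun D hD => ⟨?_, ?_⟩⟩
  · intro S hSm hS Z hZ hZs M
    exact h1 D (((le_max_left _ _).trans (le_max_left _ _)).trans hD) S hSm hS Z hZ hZs M
  · intro 𝒟 h𝒟m h𝒟 M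
    have hD1 : 1 ≤ D := (le_max_right _ _).trans hD
    have hDpos : (0 : ℝ) < D := by exact_mod_cast hD1
    have hD2 : Real.exp (1 / η) ≤ D := hD₂.trans (by
      exact_mod_cast ((le_max_right _ _).trans (le_max_left _ _)).trans hD)
    have hlogD : 1 / η ≤ Real.log D := by
      rw [Real.le_log_iff_exp_le hDpos]
      exact hD2
    have hηL : 1 ≤ η * Real.log D := by
      rw [div_le_iff₀ hη] at hlogD
      linarith
    set Z : ℕ × ℕ → ℝ := fun w =>
      c * η / m * (w.1.totient * Real.log w.1 * Real.log (Real.log w.1)) with hZd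
    have hd1 : ∀ d ∈ 𝒟, 1 ≤ d ∧ (d : ℝ) ≤ D ∧ 1 ≤ Real.log d := fun d hd => by
      have h3 := Nat.pos_of_dvd_of_pos (h𝒟 d hd).1 hD1
      have h4 := Nat.le_of_dvd hD1 (h𝒟 d hd).1
      refine ⟨h3, by exact_mod_cast h4, ?_⟩
      have h5 := Real.log_le_log (Real.rpow_pos_of_pos hDpos _) (h𝒟 d hd).2
      rw [Real.log_rpow hDpos] at h5
      linarith
    set S : Finset (ℕ × ℕ) := 𝒟.image (fun d => (d, 0)) with hS
    have hSc : #S = #𝒟 := by
      rw [hS, Finset.card_image_of_injective]
      intro a b hab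
      exact (Prod.mk.inj hab).1
    obtain ⟨a, a1, a2, a3, a4⟩ := h1 D (((le_max_left _ _).trans (le_max_left _ _)).trans hD) S
      (by rw [hSc]; exact h𝒟m)
      (by
        intro w hw
        rw [hS, mem_image] at hw
        obtain ⟨d, hd, rfl⟩ := hw
        exact ⟨(h𝒟 d hd).1, (h𝒟 d hd).2, (hd1 d hd).1⟩) Z (by
        intro w hw
        rw [hS, mem_image] at hw
        obtain ⟨d, hd, rfl⟩ := hw
        have e1 := (hd1 d hd).2.2
        have e2 : 0 ≤ Real.log (Real.log d) := Real.log_nonneg e1
        rw [hZd]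
        positivity) (by
        rw [hS, Finset.sum_image (fun a _ b _ hab => (Prod.mk.inj hab).1)]
        have h6 : ∀ d ∈ 𝒟, Z (d, 0) / ((d, 0) : ℕ × ℕ).1.totient ≤
            c * η / m * (Real.log D * Real.log (Real.log D)) := by
          intro d hd
          have hφ : (0 : ℝ) < d.totient := by exact_mod_cast Nat.totient_pos.2 (hd1 d hd).1
          have e : Z (d, 0) / (((d, 0) : ℕ × ℕ).1.totient : ℝ) =
              c * η / m * (Real.log d * Real.log (Real.log d)) := by
            rw [hZd]
            field_simp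
          rw [e]
          apply mul_le_mul_of_nonneg_left _ (by positivity)
          have e1 := (hd1 d hd).2.2
          have e3 : Real.log d ≤ Real.log D :=
            Real.log_le_log (by exact_mod_cast (hd1 d hd).1) (hd1 d hd).2.1
          have e4 : Real.log (Real.log d) ≤ Real.log (Real.log D) :=
            Real.log_le_log (by linarith) e3
          exact mul_le_mul e3 e4 (Real.log_nonneg e1) (by linarith)
        refine (Finset.sum_le_sum h6).trans ?_
        rw [Finset.sum_const, nsmul_eq_mul]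
        have h7 : (#𝒟 : ℝ) ≤ m := by exact_mod_cast h𝒟m
        have hL1 : 1 ≤ Real.log D := by nlinarith
        have h8 : 0 ≤ Real.log D * Real.log (Real.log D) :=
          mul_nonneg (by linarith) (Real.log_nonneg hL1)
        calc (#𝒟 : ℝ) * (c * η / m * (Real.log D * Real.log (Real.log D))) ≤
              m * (c * η / m * (Real.log D * Real.log (Real.log D))) :=
              mul_le_mul_of_nonneg_right h7 (by positivity)
          _ = c * (η * Real.log D * Real.log (Real.log D)) := by
              field_simp) M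
    refine ⟨a, a1, a2, a3, fun d hd p hp hpa => ?_⟩
    apply a4 (d, 0) (by rw [hS, mem_image]; exact ⟨d, hd, rfl⟩) p hp
    simpa using hpa

end Pool.Agent.Results.MP_458f0b_nt.SeveralModuliRecord
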