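import Pool.Agent.J6H92.LPr.Spread
import Pool.Agent.J6H92.LPr.Coset

/-!
# Least primes of record size in every spread family of residue classes

Let `p(d, a)` be the least prime congruent to `a` modulo `d`.  The known lower bounds for `p(d) = max p(d, a)` produce one class,
found by the Chinese remainder theorem.  We show that classes with `p(d, a)` of record size exist in every family of classes
whose least residues are equidistributed in the residue classes with small moduli: in the intersections of the cosets of a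
subgroup of index `k` of the group of the units with the intervals of length `k d ^ (1 / 2 + ε)`; for prime moduli in all cosets
of the subgroups of order `q ^ (3 / 8 + ε)`, among the products of the members of two sets, among the values of polynomials at
small arguments, and among the fractions with small numerator and denominator.
-/

set_option autoImplicit false

namespace Pool.Agent.Results.MP_458f0b_nt.SpreadFamilies

open Finset Filter Polynomial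
open scoped Classical

/-- `p(d, a)`: the least prime in the residue class `a` modulo `d`. -/
noncomputable def leastPrime (d : ℕ) (a : ZMod d) : ℕ := sInf {p : ℕ | p.Prime ∧ (p : ZMod d) = a}

/-- `φ(d) log d (log₂ d)² log₄ d / (log₃ d)²` -/
noncomputable def record (d : ℕ) : ℝ :=
  (Nat.totient d : ℝ) * Real.log d * (Real.log (Real.log d)) ^ 2 * Real.log (Real.log (Real.log (Real.log d))) /
    (Real.log (Real.log (Real.log d))) ^ 2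

/-- `d` has few large prime factors: `∑ 1 / p ≤ A / log₂ d`, where `p` runs over the prime factors of `d` which are larger than
`exp (log₂ d log₄ d / (20 log₃ d))`.  (This is true for almost all `d`, and for all large primes with `A = 1`.) -/
def FewLargePrimeFactors (A : ℝ) (d : ℕ) : Prop :=
  (∑ p ∈ d.primeFactors with Real.exp (Real.log (Real.log d) * Real.log (Real.log (Real.log (Real.log d))) /
    (20 * Real.log (Real.log (Real.log d)))) < ((p : ℕ) : ℝ), 1 / ((p : ℕ) : ℝ)) ≤ A / Real.log (Real.log d)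

/-- The nonempty finite family `a i`, `i ∈ s`, of numbers `0 ≤ a i < d` is `δ`-spread: at most a proportion `d ^ (-δ)` of its
members are `≤ d ^ δ` or not prime to `d`, and for every squarefree `m ≤ d ^ δ` prime to `d` and every `r` the proportion of the
members with `a i ≡ r (mod m)` differs from `1 / m` by at most `d ^ (-δ)`. -/
def Spread (δ : ℝ) (d : ℕ) {ι : Type} (s : Finset ι) (a : ι → ℕ) : Prop :=
  s.Nonempty ∧ (∀ i ∈ s, a i < d) ∧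
  ((s.filter (fun i => (a i : ℝ) ≤ (d : ℝ) ^ δ ∨ ¬ Nat.Coprime (a i) d)).card : ℝ) ≤ (d : ℝ) ^ (-δ) * s.card ∧
  ∀ m : ℕ, Squarefree m → Nat.Coprime m d → (m : ℝ) ≤ (d : ℝ) ^ δ → ∀ r : ℤ,
    |((s.filter (fun i => (m : ℤ) ∣ (a i : ℤ) - r)).card : ℝ) - s.card / m| ≤ (d : ℝ) ^ (-δ) * s.card

lemma least_of (c : ℝ) (d : ℕ) (hd : 2 ≤ d) (a : ℕ) (ha : a < d) (hco : Nat.Coprime a d)
    (h : ∀ p : ℕ, p.Prime → p % d = a → c * (Nat.totient d : ℝ) * Pool.Agent.J6H92.LPr.FF (Real.log d) < p) :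
    c * record d < leastPrime d (a : ZMod d) := by
  haveI : NeZero d := ⟨by omega⟩
  have hne : ({p : ℕ | p.Prime ∧ (p : ZMod d) = (a : ZMod d)}).Nonempty := by
    have hu : IsUnit (a : ZMod d) := (ZMod.isUnit_iff_coprime a d).mpr hco
    obtain ⟨p, -, hp, hpa⟩ := Nat.forall_exists_prime_gt_and_eq_mod hu 0
    exact ⟨p, hp, hpa⟩
  have hmem := Nat.sInf_mem hne
  have h1 := (ZMod.natCast_eq_natCast_iff' _ a d).mp hmem.2
  rw [Nat.mod_eq_of_lt ha] at h1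
  have h2 := h _ hmem.1 h1
  refine lt_of_le_of_lt (le_of_eq ?_) h2
  unfold record Pool.Agent.J6H92.LPr.FF
  ring

/-- the first part -/
theorem spread (A δ : ℝ) (hA : 0 ≤ A) (hδ : 0 < δ) (hδ1 : δ ≤ 1) : ∃ c : ℝ, 0 < c ∧ ∃ d₀ : ℕ, ∀ d : ℕ, d₀ ≤ d →
    FewLargePrimeFactors A d → ∀ (ι : Type) (s : Finset ι) (a : ι → ℕ), Spread δ d s a →
    ∃ i ∈ s, Nat.Coprime (a i) d ∧ c * record d < leastPrime d (a i : ZMod d) := by
  obtain ⟨c, hc, d₀, h⟩ := Pool.Agent.J6H92.LPr.record_spread A δ hA hδ hδ1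
  refine ⟨c, hc, d₀ + 2, fun d hd hfew ι s a hsp => ?_⟩
  obtain ⟨h1, h2, h3, h4⟩ := hsp
  obtain ⟨i, hi, hico, hip⟩ := h d (by omega) hfew ι s a ⟨h1, h2, h3, h4⟩
  exact ⟨i, hi, hico, least_of c d (by omega) (a i) (h2 i hi) hico hip⟩

/-- cosets and intervals -/
theorem cosets_intervals (A ε : ℝ) (hA : 0 ≤ A) (hε : 0 < ε) (hε1 : ε ≤ 1 / 2) : ∃ c : ℝ, 0 < c ∧ ∃ d₀ : ℕ, ∀ d : ℕ, d₀ ≤ d →
    FewLargePrimeFactors A d → ∀ (H : Subgroup (ZMod d)ˣ) (M N : ℕ), M + N ≤ d → (H.index : ℝ) * (d : ℝ) ^ (1 / 2 + ε) ≤ N →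
    ∀ x : (ZMod d)ˣ, ∃ u : (ZMod d)ˣ, x⁻¹ * u ∈ H ∧ M ≤ (u : ZMod d).val ∧ (u : ZMod d).val < M + N ∧
      c * record d < leastPrime d (u : ZMod d) := by
  obtain ⟨c, hc, d₀, h⟩ := spread A (ε / 8) hA (by positivity) (by linarith)
  obtain ⟨d₁, h1⟩ := Pool.Agent.J6H92.LPr.spread_coset ε hε hε1
  refine ⟨c, hc, d₀ + d₁ + 1, fun d hd hfew H M N hMN hH x => ?_⟩
  haveI : NeZero d := ⟨by omega⟩
  obtain ⟨s, hs⟩ : ∃ s : Finset ((ZMod d)ˣ), ∀ u : (ZMod d)ˣ, u ∈ s ↔ x⁻¹ * u ∈ H ∧ (u : ZMod d).val ∈ Ico M (M + N) :=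
    ⟨univ.filter (fun u : (ZMod d)ˣ => x⁻¹ * u ∈ H ∧ (u : ZMod d).val ∈ Ico M (M + N)), by simp⟩
  obtain ⟨g1, g2, g3, g4⟩ := h1 d (by omega) H M N hMN hH x s hs
  obtain ⟨u, hu, -, hlt⟩ := h d (by omega) hfew _ s (fun u => (u : ZMod d).val) ⟨g1, g2, g3, g4⟩
  rw [hs, mem_Ico] at hu
  refine ⟨u, hu.1, hu.2.1, hu.2.2, ?_⟩
  rwa [ZMod.natCast_zmod_val] at hlt

lemma few_prime : ∃ q₀ : ℕ, ∀ q : ℕ, q₀ ≤ q → q.Prime → FewLargePrimeFactors 1 q := by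
  refine ⟨3, fun q hq hp => ?_⟩
  unfold FewLargePrimeFactors
  rw [hp.primeFactors]
  have hq0 : (0 : ℝ) < q := by exact_mod_cast hp.pos
  have hq3 : (3 : ℝ) ≤ q := by exact_mod_cast hq
  have hl1 : 1 < Real.log q := by
    rw [Real.lt_log_iff_exp_lt hq0]
    have := Real.exp_one_lt_d9
    linarith
  have hl2 : 0 < Real.log (Real.log q) := Real.log_pos hl1
  refine (sum_le_sum_of_subset_of_nonneg (filter_subset _ _) fun p _ _ => by positivity).trans ?_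
  rw [sum_singleton]
  apply one_div_le_one_div_of_le hl2
  have h1 := Real.log_le_sub_one_of_pos (show 0 < Real.log q by linarith)
  have h2 := Real.log_le_sub_one_of_pos hq0
  linarith

/-- from families with small Fourier coefficients -/
theorem of_flat (δ : ℝ) (hδ : 0 < δ) (hδ1 : δ ≤ 1 / 3) : ∃ c : ℝ, 0 < c ∧ ∃ q₀ : ℕ, ∀ q : ℕ, q₀ ≤ q → ∀ [Fact q.Prime],
    ∀ (ι : Type) (s : Finset ι) (y : ι → ZMod q), s.Nonempty →
    Pool.Agent.N384.MQ.Flat q (1 / (q : ℝ) ^ (2 * δ)) s y →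
    ∃ i ∈ s, y i ≠ 0 ∧ c * record q < leastPrime q (y i) := by
  obtain ⟨c, hc, d₀, h⟩ := spread 1 δ (by norm_num) hδ (by linarith)
  obtain ⟨q₁, h1⟩ := few_prime
  obtain ⟨q₂, h2⟩ := Pool.Agent.J6H92.LPr.spread_of_flat δ hδ hδ1
  refine ⟨c, hc, d₀ + q₁ + q₂, fun q hq _ ι s y hs hf => ?_⟩
  have hqp : q.Prime := Fact.out
  haveI : NeZero q := ⟨hqp.ne_zero⟩
  obtain ⟨g1, g2, g3, g4⟩ := h2 q (by omega) ι s y hs hf
  obtain ⟨i, hi, hico, hip⟩ := h q (by omega) (h1 q (by omega) hqp) ι s (fun i => (y i).val) ⟨g1, g2, g3, g4⟩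
  refine ⟨i, hi, ?_, ?_⟩
  · intro h0
    rw [h0, ZMod.val_zero] at hico
    exact hqp.one_lt.ne' (by simpa using hico)
  · simpa using hip

lemma rpow_absorb (C κ : ℝ) (hκ : 0 < κ) : ∃ q₀ : ℕ, ∀ q : ℕ, q₀ ≤ q → C ≤ (q : ℝ) ^ κ ∧ (1 : ℝ) ≤ q := by
  obtain ⟨x₀, h⟩ := eventually_atTop.1 (((tendsto_rpow_atTop hκ).eventually_ge_atTop C).and (eventually_ge_atTop (1 : ℝ)))
  obtain ⟨q₀, hq₀⟩ := exists_nat_ge x₀
  exact ⟨q₀, fun q hq => h q (hq₀.trans (by exact_mod_cast hq))⟩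

/-- cosets -/
theorem cosets (ε : ℝ) (hε : 0 < ε) : ∃ c : ℝ, 0 < c ∧ ∃ q₀ : ℕ, ∀ q : ℕ, q₀ ≤ q → q.Prime →
    ∀ H : Subgroup (ZMod q)ˣ, (q : ℝ) ^ (3 / 8 + ε) ≤ Nat.card H → ∀ x : (ZMod q)ˣ,
    ∃ u ∈ H, c * record q < leastPrime q ((x * u : (ZMod q)ˣ) : ZMod q) := by
  obtain ⟨δ, hδd⟩ : ∃ δ : ℝ, δ = min (ε / 12) (1 / 3) := ⟨_, rfl⟩
  have hδ : 0 < δ := by rw [hδd]; exact lt_min (by positivity) (by norm_num)
  have hδ1 : δ ≤ 1 / 3 := by rw [hδd]; exact min_le_right _ _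
  have hδ2 : δ ≤ ε / 12 := by rw [hδd]; exact min_le_left _ _
  obtain ⟨c, hc, q₁, h⟩ := of_flat δ hδ hδ1
  obtain ⟨q₂, h2⟩ := rpow_absorb 5 (ε / 2) (by positivity)
  refine ⟨c, hc, q₁ + q₂, fun q hq hp H hH x => ?_⟩
  haveI : Fact q.Prime := ⟨hp⟩
  obtain ⟨h3, h4⟩ := h2 q (by omega)
  have hq0 : (0 : ℝ) < q := by linarith
  obtain ⟨s, hs⟩ : ∃ s : Finset (ZMod q)ˣ, ∀ u, u ∈ s ↔ u ∈ H := ⟨univ.filter (fun u => u ∈ H), by simp⟩
  have hcard : (s.card : ℝ) = Nat.card H := by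
    have : s.card = Nat.card H := by
      rw [← Nat.card_eq_finsetCard]
      exact Nat.card_congr (Equiv.subtypeEquivRight hs)
    exact_mod_cast this
  have hne : s.Nonempty := ⟨1, (hs 1).2 H.one_mem⟩
  have hK : (1 : ℝ) ≤ (q : ℝ) ^ (2 * δ) := Real.one_le_rpow h4 (by positivity)
  have hbig : 5 * (q : ℝ) ^ (3 / 8 : ℝ) * ((q : ℝ) ^ (2 * δ)) ^ 3 ≤ s.card := by
    rw [hcard]
    refine le_trans ?_ hH
    rw [← Real.rpow_natCast ((q : ℝ) ^ (2 * δ)) 3, ← Real.rpow_mul hq0.le]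
    calc 5 * (q : ℝ) ^ (3 / 8 : ℝ) * (q : ℝ) ^ (2 * δ * (3 : ℕ)) ≤
          (q : ℝ) ^ (ε / 2) * (q : ℝ) ^ (3 / 8 : ℝ) * (q : ℝ) ^ (ε / 2) := by
          apply mul_le_mul (mul_le_mul_of_nonneg_right h3 (by positivity)) _ (by positivity) (by positivity)
          apply Real.rpow_le_rpow_of_exponent_le h4
          push_cast
          linarith
      _ = (q : ℝ) ^ (3 / 8 + ε) := by
          rw [← Real.rpow_add hq0, ← Real.rpow_add hq0]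
          congr 1
          ring
  have hflat := Pool.Agent.N384.MQ.flatK_coset q H s hs ((q : ℝ) ^ (2 * δ)) hK hbig (x : ZMod q) x.ne_zero
  obtain ⟨u, hu, -, hlt⟩ := h q (by omega) _ s _ hne hflat
  refine ⟨u, (hs u).1 hu, ?_⟩
  rw [Units.val_mul]
  exact hlt

/-- products -/
theorem products (ε : ℝ) (hε : 0 < ε) : ∃ c : ℝ, 0 < c ∧ ∃ q₀ : ℕ, ∀ q : ℕ, q₀ ≤ q → q.Prime →
    ∀ A B : Finset (ZMod q), (q : ℝ) ^ (1 + ε) ≤ (A.card : ℝ) * B.card → ∀ g k : ZMod q → ZMod q,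
    ∃ a ∈ A, ∃ b ∈ B, a * b + g a + k b ≠ 0 ∧ c * record q < leastPrime q (a * b + g a + k b) := by
  obtain ⟨δ, hδd⟩ : ∃ δ : ℝ, δ = min (ε / 4) (1 / 3) := ⟨_, rfl⟩
  have hδ : 0 < δ := by rw [hδd]; exact lt_min (by positivity) (by norm_num)
  have hδ1 : δ ≤ 1 / 3 := by rw [hδd]; exact min_le_right _ _
  have hδ2 : δ ≤ ε / 4 := by rw [hδd]; exact min_le_left _ _
  obtain ⟨c, hc, q₁, h⟩ := of_flat δ hδ hδ1
  refine ⟨c, hc, q₁, fun q hq hp A B hAB g k => ?_⟩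
  haveI : Fact q.Prime := ⟨hp⟩
  have h4 : (1 : ℝ) ≤ q := by exact_mod_cast hp.one_lt.le
  have hq0 : (0 : ℝ) < q := by linarith
  have hK : (1 : ℝ) ≤ (q : ℝ) ^ (2 * δ) := Real.one_le_rpow h4 (by positivity)
  have hbig : (q : ℝ) * ((q : ℝ) ^ (2 * δ)) ^ 2 ≤ A.card * B.card := by
    refine le_trans ?_ hAB
    rw [← Real.rpow_natCast ((q : ℝ) ^ (2 * δ)) 2, ← Real.rpow_mul hq0.le, ← Real.rpow_one_add' hq0.le (by positivity)]
    apply Real.rpow_le_rpow_of_exponent_le h4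
    push_cast
    linarith
  have hne : (A ×ˢ B).Nonempty := by
    rw [← card_pos, card_product]
    have : (0 : ℝ) < A.card * B.card := lt_of_lt_of_le (by positivity) hAB
    exact_mod_cast this
  have hflat := Pool.Agent.N384.MQ.flatK_prod q A B g k ((q : ℝ) ^ (2 * δ)) hK hbig
  obtain ⟨z, hz, hz0, hlt⟩ := h q (by omega) _ (A ×ˢ B) _ hne hflat
  rw [mem_product] at hz
  exact ⟨z.1, hz.1, z.2, hz.2, hz0, hlt⟩

/-- values of polynomials -/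
theorem polynomials (n : ℕ) (hn : 1 ≤ n) (ε : ℝ) (hε : 0 < ε) : ∃ c : ℝ, 0 < c ∧ ∃ q₀ : ℕ, ∀ q : ℕ, q₀ ≤ q → q.Prime →
    ∀ f : ℤ[X], f.natDegree = n → ¬ (q : ℤ) ∣ f.leadingCoeff → ∀ N : ℕ, (q : ℝ) ^ (1 + ε) ≤ (N : ℝ) ^ n →
    ∃ t < N, ((f.eval (t : ℤ) : ℤ) : ZMod q) ≠ 0 ∧ c * record q < leastPrime q ((f.eval (t : ℤ) : ℤ) : ZMod q) := by
  obtain ⟨C, hflat⟩ := Pool.Agent.N384.MQ.flatK_poly n hn
  obtain ⟨δ, hδd⟩ : ∃ δ : ℝ, δ = min (min ε 1 / (4 * (C + 1))) (1 / 3) := ⟨_, rfl⟩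
  have hm : 0 < min ε 1 := lt_min hε one_pos
  have hδ : 0 < δ := by rw [hδd]; exact lt_min (by positivity) (by norm_num)
  have hδ1 : δ ≤ 1 / 3 := by rw [hδd]; exact min_le_right _ _
  have hδ2 : δ ≤ min ε 1 / (4 * (C + 1)) := by rw [hδd]; exact min_le_left _ _
  have hδ3 : 2 * δ * C ≤ min ε 1 / 2 := by
    rw [le_div_iff₀ (by positivity)] at hδ2
    nlinarith
  obtain ⟨c, hc, q₁, h⟩ := of_flat δ hδ hδ1
  obtain ⟨q₂, h2⟩ := rpow_absorb C (min ε 1 / 2) (by positivity)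
  refine ⟨c, hc, q₁ + q₂, fun q hq hp f hf hlc N hN => ?_⟩
  haveI : Fact q.Prime := ⟨hp⟩
  obtain ⟨h3, h4⟩ := h2 q (by omega)
  have hq0 : (0 : ℝ) < q := by linarith
  have hK : (1 : ℝ) ≤ (q : ℝ) ^ (2 * δ) := Real.one_le_rpow h4 (by positivity)
  have hCK : (C : ℝ) * ((q : ℝ) ^ (2 * δ)) ^ C ≤ (q : ℝ) ^ (min ε 1) := by
    rw [← Real.rpow_natCast ((q : ℝ) ^ (2 * δ)) C, ← Real.rpow_mul hq0.le]
    calc (C : ℝ) * (q : ℝ) ^ (2 * δ * C) ≤ (q : ℝ) ^ (min ε 1 / 2) * (q : ℝ) ^ (min ε 1 / 2) :=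
          mul_le_mul h3 (Real.rpow_le_rpow_of_exponent_le h4 hδ3) (by positivity) (by positivity)
      _ = (q : ℝ) ^ (min ε 1) := by
          rw [← Real.rpow_add hq0]
          congr 1
          ring
  have hN0 : 0 < N := by
    rcases Nat.eq_zero_or_pos N with h0 | h0
    · rw [h0] at hN
      have : (0 : ℝ) < ((0 : ℕ) : ℝ) ^ n := lt_of_lt_of_le (by positivity) hN
      rw [Nat.cast_zero, zero_pow (by omega)] at this
      exact absurd this (lt_irrefl _)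
    · exact h0
  have hfl := hflat q f hf hlc ((q : ℝ) ^ (2 * δ)) hK (by
      refine hCK.trans ?_
      calc (q : ℝ) ^ (min ε 1) ≤ (q : ℝ) ^ (1 : ℝ) := Real.rpow_le_rpow_of_exponent_le h4 (min_le_right _ _)
        _ = q := Real.rpow_one _) N (by
      refine le_trans ?_ hN
      calc (C : ℝ) * ((q : ℝ) ^ (2 * δ)) ^ C * q ≤ (q : ℝ) ^ (min ε 1) * q := mul_le_mul_of_nonneg_right hCK hq0.le
        _ ≤ (q : ℝ) ^ ε * q := by
            apply mul_le_mul_of_nonneg_right _ hq0.le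
            exact Real.rpow_le_rpow_of_exponent_le h4 (min_le_left _ _)
        _ = (q : ℝ) ^ (1 + ε) := by rw [Real.rpow_add hq0, Real.rpow_one, mul_comm])
  obtain ⟨t, ht, ht0, hlt⟩ := h q (by omega) _ (range N) _ (nonempty_range_iff.2 hN0.ne') hfl
  exact ⟨t, mem_range.1 ht, ht0, hlt⟩

/-- fractions -/
theorem fractions (ε : ℝ) (hε : 0 < ε) (hε1 : ε ≤ 1 / 2) : ∃ c : ℝ, 0 < c ∧ ∃ q₀ : ℕ, ∀ q : ℕ, q₀ ≤ q → q.Prime →
    ∃ r t : ℕ, r.Prime ∧ (r : ℝ) ≤ (q : ℝ) ^ ε ∧ 0 < t ∧ (t : ℝ) ≤ (q : ℝ) ^ (2 * ε) ∧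
      c * record q < leastPrime q ((t : ZMod q) * (r : ZMod q)⁻¹) := by
  obtain ⟨δ, hδd⟩ : ∃ δ : ℝ, δ = ε / 8 := ⟨_, rfl⟩
  have hδ : 0 < δ := by rw [hδd]; positivity
  obtain ⟨c, hc, q₁, h⟩ := of_flat δ hδ (by rw [hδd]; linarith)
  obtain ⟨P₀, hflat⟩ := Pool.Agent.N384.MQ.flatK_quot
  have hlog : ∀ᶠ x : ℝ in atTop, Real.log x ^ 4 ≤ 1 / 2 * x ^ (ε / 2) := by
    have h1 := (isLittleO_log_rpow_rpow_atTop (4 : ℝ) (show 0 < ε / 2 by positivity)).bound (show (0 : ℝ) < 1 / 2 by norm_num)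
    filter_upwards [h1, eventually_ge_atTop (1 : ℝ)] with x hx hx1
    rw [Real.norm_of_nonneg (Real.rpow_nonneg (Real.log_nonneg hx1) _), Real.norm_of_nonneg (by positivity)] at hx
    have : Real.log x ^ (4 : ℝ) = Real.log x ^ 4 := by
      rw [← Real.rpow_natCast]
      norm_num
    rwa [this] at hx
  obtain ⟨x₀, hx₀⟩ := eventually_atTop.1 hlog
  obtain ⟨q₂, hq₂⟩ := exists_nat_ge x₀
  obtain ⟨q₃, h3⟩ := rpow_absorb 4 ε hε
  refine ⟨c, hc, q₁ + P₀ + q₂ + q₃ + 2, fun q hq hp => ?_⟩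
  haveI : Fact q.Prime := ⟨hp⟩
  haveI : NeZero q := ⟨hp.ne_zero⟩
  obtain ⟨h4, h5⟩ := h3 q (by omega)
  have hq0 : (0 : ℝ) < q := by linarith
  have hlq := hx₀ q (hq₂.trans (by exact_mod_cast (by omega : q₂ ≤ q)))
  have hK : (1 : ℝ) ≤ (q : ℝ) ^ (2 * δ) := Real.one_le_rpow h5 (by positivity)
  obtain ⟨R, hR⟩ : ∃ R, R = ⌊(q : ℝ) ^ ε⌋₊ := ⟨_, rfl⟩
  have hRle : (R : ℝ) ≤ (q : ℝ) ^ ε := by rw [hR]; exact Nat.floor_le (by positivity)
  have hRge : (q : ℝ) ^ ε / 2 ≤ R := by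
    have := Nat.lt_floor_add_one ((q : ℝ) ^ ε)
    rw [← hR] at this
    linarith
  have hR4 : 4 ≤ R := by
    rw [hR]
    exact Nat.le_floor (by exact_mod_cast h4)
  have hKR : (q : ℝ) ^ (2 * δ) * Real.log q ^ 4 ≤ R := by
    refine le_trans ?_ hRge
    calc (q : ℝ) ^ (2 * δ) * Real.log q ^ 4 ≤ (q : ℝ) ^ (ε / 2) * (1 / 2 * (q : ℝ) ^ (ε / 2)) := by
          apply mul_le_mul _ hlq (by positivity) (by positivity)
          apply Real.rpow_le_rpow_of_exponent_le h5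
          rw [hδd]
          linarith
      _ = (q : ℝ) ^ ε / 2 := by
          have e : (q : ℝ) ^ ε = (q : ℝ) ^ (ε / 2) * (q : ℝ) ^ (ε / 2) := by
            rw [← Real.rpow_add hq0]
            congr 1
            ring
          rw [e]
          ring
  have hRq : R < q := by
    have h6 : (q : ℝ) ^ ε < q := by
      calc (q : ℝ) ^ ε < (q : ℝ) ^ (1 : ℝ) := Real.rpow_lt_rpow_of_exponent_lt (by exact_mod_cast hp.one_lt) (by linarith)
        _ = q := Real.rpow_one _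
    exact_mod_cast hRle.trans_lt h6
  have hfl := hflat q (by omega) ((q : ℝ) ^ (2 * δ)) hK R (R ^ 2) hKR hRq le_rfl
  have hne : (((Icc 1 R).filter Nat.Prime) ×ˢ range (R ^ 2)).Nonempty := by
    refine ⟨(2, 0), ?_⟩
    rw [mem_product, mem_filter, mem_Icc, mem_range]
    exact ⟨⟨⟨by norm_num, by omega⟩, Nat.prime_two⟩, by positivity⟩
  obtain ⟨z, hz, hz0, hlt⟩ := h q (by omega) _ _ _ hne hfl
  rw [mem_product, mem_filter, mem_Icc, mem_range] at hz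
  refine ⟨z.1, z.2, hz.1.2, ?_, ?_, ?_, hlt⟩
  · exact le_trans (by exact_mod_cast hz.1.1.2) hRle
  · rcases Nat.eq_zero_or_pos z.2 with h0 | h0
    · exact absurd (by rw [h0]; simp) hz0
    · exact h0
  · have h7 : ((z.2 : ℕ) : ℝ) ≤ (R : ℝ) ^ 2 := by exact_mod_cast hz.2.le
    refine h7.trans ?_
    rw [two_mul, Real.rpow_add hq0, sq]
    exact mul_le_mul hRle hRle (by positivity) (by positivity)

/-- Least primes of record size in spread families. -/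
theorem result :
    -- spread families, general moduli
    (∀ A δ : ℝ, 0 ≤ A → 0 < δ → δ ≤ 1 → ∃ c : ℝ, 0 < c ∧ ∃ d₀ : ℕ, ∀ d : ℕ, d₀ ≤ d →
      FewLargePrimeFactors A d → ∀ (ι : Type) (s : Finset ι) (a : ι → ℕ), Spread δ d s a →
      ∃ i ∈ s, Nat.Coprime (a i) d ∧ c * record d < leastPrime d (a i : ZMod d)) ∧
    -- cosets and intervals, general moduli
    (∀ A ε : ℝ, 0 ≤ A → 0 < ε → ε ≤ 1 / 2 → ∃ c : ℝ, 0 < c ∧ ∃ d₀ : ℕ, ∀ d : ℕ, d₀ ≤ d →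
      FewLargePrimeFactors A d → ∀ (H : Subgroup (ZMod d)ˣ) (M N : ℕ), M + N ≤ d → (H.index : ℝ) * (d : ℝ) ^ (1 / 2 + ε) ≤ N →
      ∀ x : (ZMod d)ˣ, ∃ u : (ZMod d)ˣ, x⁻¹ * u ∈ H ∧ M ≤ (u : ZMod d).val ∧ (u : ZMod d).val < M + N ∧
        c * record d < leastPrime d (u : ZMod d)) ∧
    -- cosets of small subgroups, prime moduli
    (∀ ε : ℝ, 0 < ε → ∃ c : ℝ, 0 < c ∧ ∃ q₀ : ℕ, ∀ q : ℕ, q₀ ≤ q → q.Prime →
      ∀ H : Subgroup (ZMod q)ˣ, (q : ℝ) ^ (3 / 8 + ε) ≤ Nat.card H → ∀ x : (ZMod q)ˣ,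
      ∃ u ∈ H, c * record q < leastPrime q ((x * u : (ZMod q)ˣ) : ZMod q)) ∧
    -- products
    (∀ ε : ℝ, 0 < ε → ∃ c : ℝ, 0 < c ∧ ∃ q₀ : ℕ, ∀ q : ℕ, q₀ ≤ q → q.Prime →
      ∀ A B : Finset (ZMod q), (q : ℝ) ^ (1 + ε) ≤ (A.card : ℝ) * B.card → ∀ g k : ZMod q → ZMod q,
      ∃ a ∈ A, ∃ b ∈ B, a * b + g a + k b ≠ 0 ∧ c * record q < leastPrime q (a * b + g a + k b)) ∧
    -- values of polynomials
    (∀ n : ℕ, 1 ≤ n → ∀ ε : ℝ, 0 < ε → ∃ c : ℝ, 0 < c ∧ ∃ q₀ : ℕ, ∀ q : ℕ, q₀ ≤ q → q.Prime →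
      ∀ f : ℤ[X], f.natDegree = n → ¬ (q : ℤ) ∣ f.leadingCoeff → ∀ N : ℕ, (q : ℝ) ^ (1 + ε) ≤ (N : ℝ) ^ n →
      ∃ t < N, ((f.eval (t : ℤ) : ℤ) : ZMod q) ≠ 0 ∧
        c * record q < leastPrime q ((f.eval (t : ℤ) : ℤ) : ZMod q)) ∧
    -- fractions of small height
    (∀ ε : ℝ, 0 < ε → ε ≤ 1 / 2 → ∃ c : ℝ, 0 < c ∧ ∃ q₀ : ℕ, ∀ q : ℕ, q₀ ≤ q → q.Prime →
      ∃ r t : ℕ, r.Prime ∧ (r : ℝ) ≤ (q : ℝ) ^ ε ∧ 0 < t ∧ (t : ℝ) ≤ (q : ℝ) ^ (2 * ε) ∧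
        c * record q < leastPrime q ((t : ZMod q) * (r : ZMod q)⁻¹)) :=
  ⟨spread, cosets_intervals, cosets, products, polynomials, fractions⟩

end Pool.Agent.Results.MP_458f0b_nt.SpreadFamilies
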